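import Pool.Agent.Lib.helper21.GrayObs

/-! The Cancellation Law fails for the Borel algebra of a compact metrizable abelian group. -/

set_option autoImplicit false

namespace Pool.Agent.Results.MP_59868e_an.Counter

open Set

/-- `A ∼ B` with pieces in `𝒜`, by translations -/
def Equi {X : Type} [AddCommGroup X] (𝒜 : Set (Set X)) (A B : Set X) : Prop :=
  ∃ (k : ℕ) (P : Fin k → Set X) (g : Fin k → X), (∀ i, P i ∈ 𝒜 ∧ (g i + ·) '' P i ∈ 𝒜) ∧
    Pairwise (fun i j => Disjoint (P i) (P j)) ∧ (⋃ i, P i) = A ∧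
    Pairwise (fun i j => Disjoint ((g i + ·) '' P i) ((g j + ·) '' P j)) ∧ (⋃ i, (g i + ·) '' P i) = B

/-- `n [A] = n [B]` with pieces in `𝒜`, by translations -/
def EquiMul {X : Type} [AddCommGroup X] (𝒜 : Set (Set X)) (n : ℕ) (A B : Set X) : Prop :=
  ∃ (k : ℕ) (C : Fin k → Set X) (g : Fin k → X) (j m : Fin k → ℕ), (∀ i, C i ∈ 𝒜 ∧ (g i + ·) '' C i ∈ 𝒜) ∧
    Pairwise (fun a b => Disjoint (C a ×ˢ {j a}) (C b ×ˢ {j b})) ∧ (⋃ i, C i ×ˢ {j i}) = A ×ˢ Iio n ∧
    Pairwise (fun a b => Disjoint (((g a + ·) '' C a) ×ˢ {m a}) (((g b + ·) '' C b) ×ˢ {m b})) ∧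
    (⋃ i, ((g i + ·) '' C i) ×ˢ {m i}) = B ×ˢ Iio n

open Pool.Agent.Lib.Helper21.Gray in
theorem result : ∃ (X : Type) (_ : AddCommGroup X) (_ : TopologicalSpace X), IsTopologicalAddGroup X ∧
    CompactSpace X ∧ T2Space X ∧ SecondCountableTopology X ∧ ∃ A B : Set X,
      @MeasurableSet X (borel X) A ∧ @MeasurableSet X (borel X) B ∧
      EquiMul {s | @MeasurableSet X (borel X) s} 2 A B ∧
      ¬Equi {s | @MeasurableSet X (borel X) s} A B := by
  refine ⟨G, inferInstance, inferInstance, inferInstance, inferInstance, inferInstance, inferInstance, A, B, ?_⟩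
  rw [← BorelSpace.measurable_eq (α := G)]
  obtain ⟨k, C, g, j, m, h1, h2, h3, h4, h5⟩ := double
  have h6 : ∀ i, MeasurableSet ((g i + ·) '' C i) := fun i =>
    (measurableEmbedding_addLeft (g i)).measurableSet_image.2 (h1 i)
  have key : ∀ {S : Set G}, MeasurableSet (S ×ˢ Iio 2) → MeasurableSet S := fun {S} h => by
    simpa [preimage] using measurable_prodMk_right (y := 0) h
  refine ⟨key (h3 ▸ MeasurableSet.iUnion fun i => (h1 i).prod (measurableSet_singleton _)),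
    key (h5 ▸ MeasurableSet.iUnion fun i => (h6 i).prod (measurableSet_singleton _)),
    ⟨k, C, g, j, m, fun i => ⟨h1 i, h6 i⟩, h2, h3, h4, h5⟩, ?_⟩
  rintro ⟨k, P, g, a1, a2⟩
  exact not_equi ⟨k, P, g, fun i => (a1 i).1, a2⟩

end Pool.Agent.Results.MP_59868e_an.Counter
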